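import Mathlib

/-!
# Half-open interval topologies on linear orders
-/

set_option autoImplicit false

open Set Function Topology TopologicalSpace

namespace Pool.Agent.X212.Roth

/-- The linear order `L`, with the topology generated by the sets `[a, →)` and `(←, a)`. -/
def RS (L : Type) : Type := L

instance instLO {L : Type} [LinearOrder L] : LinearOrder (RS L) := inferInstanceAs (LinearOrder L)

section

variable {L : Type} [LinearOrder L]

instance instTop : TopologicalSpace (RS L) :=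
  TopologicalSpace.generateFrom
    ({s | ∃ a, s = Set.Ici a} ∪ {s | ∃ a, s = Set.Iio a})

theorem isOpen_Ici (a : RS L) : IsOpen (Set.Ici a) :=
  TopologicalSpace.GenerateOpen.basic _ (Or.inl ⟨a, rfl⟩)

theorem isOpen_Iio (a : RS L) : IsOpen (Set.Iio a) :=
  TopologicalSpace.GenerateOpen.basic _ (Or.inr ⟨a, rfl⟩)

theorem isClosed_Ici (a : RS L) : IsClosed (Set.Ici a) := by
  rw [← isOpen_compl_iff, Set.compl_Ici]
  exact isOpen_Iio a

theorem isClosed_Iio (a : RS L) : IsClosed (Set.Iio a) := by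
  rw [← isOpen_compl_iff, Set.compl_Iio]
  exact isOpen_Ici a

/-- open sets -/
theorem exists_of_isOpen {U : Set (RS L)} (hU : IsOpen U) {x : RS L} (hx : x ∈ U) :
    (∀ z, x ≤ z → z ∈ U) ∨ ∃ y, x < y ∧ ∀ z, x ≤ z → z < y → z ∈ U := by
  have hU' : TopologicalSpace.GenerateOpen
    ({s : Set (RS L) | ∃ a, s = Set.Ici a} ∪ {s | ∃ a, s = Set.Iio a}) U := hU
  clear hU
  induction hU' with
  | basic s hs =>
    rcases hs with ⟨a, rfl⟩ | ⟨a, rfl⟩
    · exact Or.inl (fun z hz => le_trans hx hz)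
    · exact Or.inr ⟨a, hx, fun z _ hz => hz⟩
  | univ => exact Or.inl (fun _ _ => trivial)
  | inter s t _ _ ihs iht =>
    rcases ihs hx.1 with h1 | ⟨y, hy, h1⟩ <;> rcases iht hx.2 with h2 | ⟨y', hy', h2⟩
    · exact Or.inl (fun z hz => ⟨h1 z hz, h2 z hz⟩)
    · exact Or.inr ⟨y', hy', fun z hz hz' => ⟨h1 z hz, h2 z hz hz'⟩⟩
    · exact Or.inr ⟨y, hy, fun z hz hz' => ⟨h1 z hz hz', h2 z hz⟩⟩
    · exact Or.inr ⟨min y y', lt_min hy hy', fun z hz hz' =>
        ⟨h1 z hz (hz'.trans_le (min_le_left _ _)), h2 z hz (hz'.trans_le (min_le_right _ _))⟩⟩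
  | sUnion S _ ih =>
    obtain ⟨s, hs, hxs⟩ := hx
    rcases ih s hs hxs with h1 | ⟨y, hy, h1⟩
    · exact Or.inl (fun z hz => ⟨s, hs, h1 z hz⟩)
    · exact Or.inr ⟨y, hy, fun z hz hz' => ⟨s, hs, h1 z hz hz'⟩⟩

instance instT2 : T2Space (RS L) := by
  refine ⟨fun x y hxy => ?_⟩
  rcases lt_or_gt_of_ne hxy with h | h
  · refine ⟨Set.Iio y, Set.Ici y, isOpen_Iio y, isOpen_Ici y, h, le_rfl, ?_⟩
    rw [Set.disjoint_left]
    intro z hz hz'
    exact absurd hz (not_lt.2 hz')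
  · refine ⟨Set.Ici x, Set.Iio x, isOpen_Ici x, isOpen_Iio x, le_rfl, h, ?_⟩
    rw [Set.disjoint_left]
    intro z hz hz'
    exact absurd hz' (not_lt.2 hz)

instance instT3 : T3Space (RS L) := by
  have h : RegularSpace (RS L) := by
    apply RegularSpace.of_exists_mem_nhds_isClosed_subset
    intro x s hs
    obtain ⟨U, hUs, hU, hxU⟩ := mem_nhds_iff.1 hs
    rcases exists_of_isOpen hU hxU with h1 | ⟨y, hy, h1⟩
    · exact ⟨Set.Ici x, (isOpen_Ici x).mem_nhds le_rfl, isClosed_Ici x, fun z hz => hUs (h1 z hz)⟩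
    · refine ⟨Set.Ici x ∩ Set.Iio y, ((isOpen_Ici x).inter (isOpen_Iio y)).mem_nhds ⟨le_rfl, hy⟩,
        (isClosed_Ici x).inter (isClosed_Iio y), fun z hz => hUs (h1 z hz.1 hz.2)⟩
  exact { }

/-- the sum of the two half-open interval topologies -/
abbrev Z (L : Type) : Type := RS L ⊕ RS Lᵒᵈ

/-- the two copies of the points of `L` -/
def il (x : L) : Z L := Sum.inl x

def ir (x : L) : Z L := Sum.inr (OrderDual.toDual x)

/-- The pairs `(il x, ir x)` are a closed discrete subset of the square. -/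
theorem exists_nhds (p q : Z L) : ∃ O P : Set (Z L), IsOpen O ∧ IsOpen P ∧ p ∈ O ∧ q ∈ P ∧
    {x : L | il x ∈ O ∧ ir x ∈ P}.Subsingleton := by
  rcases p with x | x <;> rcases q with y | y
  · refine ⟨Set.univ, Set.range Sum.inl, isOpen_univ, isOpen_range_inl, trivial, ⟨y, rfl⟩, ?_⟩
    rintro z ⟨_, ⟨w, hw⟩⟩
    exact absurd hw (by simp [ir])
  · -- the interesting case
    have hO : ∀ S : Set (RS L), IsOpen S → IsOpen (Sum.inl '' S : Set (Z L)) :=
      fun S hS => isOpenMap_inl _ hS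
    have hP : ∀ S : Set (RS Lᵒᵈ), IsOpen S → IsOpen (Sum.inr '' S : Set (Z L)) :=
      fun S hS => isOpenMap_inr _ hS
    -- points of `L`
    obtain ⟨x', hx'⟩ : ∃ x' : L, x' = (x : L) := ⟨x, rfl⟩
    obtain ⟨y', hy'⟩ : ∃ y' : L, OrderDual.toDual y' = (y : Lᵒᵈ) := ⟨OrderDual.ofDual y, rfl⟩
    have key : ∃ (S : Set (RS L)) (S' : Set (RS Lᵒᵈ)), IsOpen S ∧ IsOpen S' ∧ x ∈ S ∧ y ∈ S' ∧
        {z : L | z ∈ S ∧ OrderDual.toDual z ∈ S'}.Subsingleton := by
      rcases lt_or_ge x' y' with h | h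
      · by_cases hc : ∃ c, x' < c ∧ c < y'
        · obtain ⟨c, h1, h2⟩ := hc
          refine ⟨Set.Iio (α := RS L) c, Set.Iio (α := RS Lᵒᵈ) (OrderDual.toDual c),
            isOpen_Iio (L := L) c, isOpen_Iio (L := Lᵒᵈ) (OrderDual.toDual c), ?_, ?_, ?_⟩
          · exact hx' ▸ h1
          · exact hy' ▸ h2
          · rintro z ⟨h3, h4⟩
            have h3' : z < c := h3
            have h4' : c < z := h4
            exact absurd h3' (lt_asymm h4')
        · refine ⟨Set.Iio (α := RS L) y', Set.Iio (α := RS Lᵒᵈ) (OrderDual.toDual x'),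
            isOpen_Iio (L := L) y', isOpen_Iio (L := Lᵒᵈ) (OrderDual.toDual x'), ?_, ?_, ?_⟩
          · exact hx' ▸ h
          · exact hy' ▸ h
          · rintro z ⟨h3, h4⟩
            have h3' : z < y' := h3
            have h4' : x' < z := h4
            exact absurd ⟨z, h4', h3'⟩ hc
      · refine ⟨Set.Ici (α := RS L) x', Set.Ici (α := RS Lᵒᵈ) (OrderDual.toDual y'),
            isOpen_Ici (L := L) x', isOpen_Ici (L := Lᵒᵈ) (OrderDual.toDual y'), ?_, ?_, ?_⟩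
        · exact hx' ▸ le_refl x'
        · exact hy' ▸ le_refl y'
        · rintro z ⟨h3, h4⟩ w ⟨h5, h6⟩
          have h3' : x' ≤ z := h3
          have h4' : z ≤ y' := h4
          have h5' : x' ≤ w := h5
          have h6' : w ≤ y' := h6
          exact le_antisymm (h4'.trans (h.trans h5')) (h6'.trans (h.trans h3'))
    obtain ⟨S, S', h1, h2, h3, h4, h5⟩ := key
    refine ⟨Sum.inl '' S, Sum.inr '' S', hO S h1, hP S' h2, ⟨x, h3, rfl⟩, ⟨y, h4, rfl⟩, ?_⟩
    rintro z ⟨⟨a, ha, hza⟩, ⟨b, hb, hzb⟩⟩ w ⟨⟨a', ha', hwa⟩, ⟨b', hb', hwb⟩⟩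
    have e1 : a = z := Sum.inl_injective hza
    have e2 : b = OrderDual.toDual z := Sum.inr_injective hzb
    have e3 : a' = w := Sum.inl_injective hwa
    have e4 : b' = OrderDual.toDual w := Sum.inr_injective hwb
    exact h5 ⟨e1 ▸ ha, e2 ▸ hb⟩ ⟨e3 ▸ ha', e4 ▸ hb'⟩
  · refine ⟨Set.range Sum.inr, Set.univ, isOpen_range_inr, isOpen_univ, ⟨x, rfl⟩, trivial, ?_⟩
    rintro z ⟨⟨w, hw⟩, _⟩
    exact absurd hw (by simp [il])
  · refine ⟨Set.range Sum.inr, Set.univ, isOpen_range_inr, isOpen_univ, ⟨x, rfl⟩, trivial, ?_⟩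
    rintro z ⟨⟨w, hw⟩, _⟩
    exact absurd hw (by simp [il])

/-- every finite set has an open neighbourhood which contains both copies of finitely many points
only -/
theorem exists_open {F : Set (Z L)} (hF : F.Finite) : ∃ V : Set (Z L), IsOpen V ∧ F ⊆ V ∧
    {x : L | il x ∈ V ∧ ir x ∈ V}.Finite := by
  choose O P hO hP hpO hqP hsub using (exists_nhds (L := L))
  let N : Set (Z L × Z L) := ⋃ p ∈ F ×ˢ F, O p.1 p.2 ×ˢ P p.1 p.2
  have hN : IsOpen N := isOpen_biUnion (fun p _ => (hO _ _).prod (hP _ _))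
  have hFN : F ×ˢ F ⊆ N := by
    intro p hp
    exact Set.mem_biUnion hp ⟨hpO _ _, hqP _ _⟩
  obtain ⟨U, V, hU, hV, hFU, hFV, hUV⟩ :=
    generalized_tube_lemma hF.isCompact hF.isCompact hN hFN
  refine ⟨U ∩ V, hU.inter hV, Set.subset_inter hFU hFV, ?_⟩
  have : {x : L | il x ∈ U ∩ V ∧ ir x ∈ U ∩ V} ⊆
      ⋃ p ∈ F ×ˢ F, {x : L | il x ∈ O p.1 p.2 ∧ ir x ∈ P p.1 p.2} := by
    rintro x ⟨h1, h2⟩
    have h3 : (il x, ir x) ∈ N := hUV ⟨h1.1, h2.2⟩
    simp only [N, Set.mem_iUnion] at h3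
    obtain ⟨p, hp, h4⟩ := h3
    exact Set.mem_biUnion hp ⟨h4.1, h4.2⟩
  refine ((hF.prod hF).biUnion (fun p _ => ?_)).subset this
  exact (hsub p.1 p.2).finite

end

end Pool.Agent.X212.Roth
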