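import Pool.Agent.X212.Roth.Tree
import Pool.Agent.X212.Roth.Half

/-!
# The line of the beginnings and ends of the nodes of an Aronszajn tree
-/

set_option autoImplicit false

open Set Function Topology TopologicalSpace

namespace Pool.Agent.X212.Roth

open Pool.Agent.Helper330.DPK.Coh

/-- functions on `ω₁` with values in `ℕ ∪ {∞}`, with the lexicographic order -/
abbrev Q : Type := Lex (W → ℕ∞)

theorem Q_lt_iff {x y : Q} : x < y ↔ ∃ ξ, (∀ η < ξ, x η = y η) ∧ x ξ < y ξ := Iff.rfl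

/-- the beginning of the node `t` of level `α` -/
noncomputable def opn (α : W) (t : W → ℕ) : Q := fun ξ => if ξ < α then ((t ξ + 1 : ℕ) : ℕ∞) else 0

/-- the end of the node `t` of level `α` -/
noncomputable def cls (α : W) (t : W → ℕ) : Q := fun ξ => if ξ < α then ((t ξ + 1 : ℕ) : ℕ∞) else ⊤

/-- The line of the beginnings and ends of the nodes. -/
def X : Type := {x : Q // ∃ α t, Nd α t ∧ (x = opn α t ∨ x = cls α t)}

noncomputable instance : LinearOrder X :=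
  inferInstanceAs (LinearOrder {x : Q // ∃ α t, Nd α t ∧ (x = opn α t ∨ x = cls α t)})

/-- the points between the beginning and the end of the node -/
def cone (α : W) (t : W → ℕ) : Set X := {x | ∀ ξ < α, x.1 ξ = ((t ξ + 1 : ℕ) : ℕ∞)}

theorem cone_congr {α : W} {s t : W → ℕ} (h : Ag α s t) : cone α s = cone α t := by
  ext x
  constructor
  · intro hx ξ hξ
    rw [hx ξ hξ, h ξ hξ]
  · intro hx ξ hξ
    rw [hx ξ hξ, h ξ hξ]

theorem cone_mono {α β : W} (t : W → ℕ) (h : β ≤ α) : cone α t ⊆ cone β t :=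
  fun _ hx ξ hξ => hx ξ (hξ.trans_le h)

theorem mem_cone_of {x : X} {γ : W} {t : W → ℕ} (h : x.1 = opn γ t ∨ x.1 = cls γ t) {α : W}
    (hα : α ≤ γ) : x ∈ cone α t := by
  intro ξ hξ
  have h1 : ξ < γ := hξ.trans_le hα
  rcases h with h | h
  · rw [h]
    show (if ξ < γ then ((t ξ + 1 : ℕ) : ℕ∞) else 0) = _
    rw [if_pos h1]
  · rw [h]
    show (if ξ < γ then ((t ξ + 1 : ℕ) : ℕ∞) else ⊤) = _
    rw [if_pos h1]

/-- The main lemma for the topology of the intervals `[a, b)`. -/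
theorem main_right (𝒰 : Set (Set (RS X))) (ho : ∀ U ∈ 𝒰, IsOpen U) (hc : ⋃₀ 𝒰 = Set.univ) :
    ∃ α : W, ∀ t, Nd α t → ∃ U ∈ 𝒰, cone α t ⊆ U := by
  classical
  by_contra hcon
  push Not at hcon
  obtain ⟨δ, t, ⟨β0, hβ0⟩, hlim, hnd, hturn⟩ := turn (fun k l => k < l)
    (fun k l h => lt_or_gt_of_ne h)
    (fun α t => Nd α t ∧ ∀ U ∈ 𝒰, ¬ cone α t ⊆ U) (fun α t h => h.1)
    (fun α s t hst h => ⟨h.1.congr hst, fun U hU => by rw [← cone_congr hst]; exact h.2 U hU⟩)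
    (fun α β t hle h => ⟨h.1.mono hle, fun U hU hs => h.2 U hU ((cone_mono t hle).trans hs)⟩)
    (fun α => by
      obtain ⟨t, h1, h2⟩ := hcon α
      exact ⟨t, h1, h2⟩)
  let c : X := ⟨cls δ t, δ, t, hnd, Or.inr rfl⟩
  have hcU : c ∈ ⋃₀ 𝒰 := by rw [hc]; trivial
  obtain ⟨U, hU, hcU⟩ := hcU
  -- a level below which neighbourhoods are determined
  obtain ⟨β, hβ, hβU⟩ : ∃ β < δ, ∀ z : X, (∀ ξ < β, z.1 ξ = ((t ξ + 1 : ℕ) : ℕ∞)) → c < z →
      z ∈ U := by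
    rcases exists_of_isOpen (ho U hU) hcU with h | ⟨y, hy, h⟩
    · exact ⟨β0, hβ0, fun z _ hz => h z hz.le⟩
    · obtain ⟨ξ, h1, h2⟩ := Q_lt_iff.1 (show c.1 < (y : X).1 from hy)
      have hξ : ξ < δ := by
        by_contra hξ
        have : c.1 ξ = ⊤ := by
          show (if ξ < δ then ((t ξ + 1 : ℕ) : ℕ∞) else ⊤) = ⊤
          rw [if_neg hξ]
        rw [this] at h2
        exact not_top_lt h2
      refine ⟨sc ξ, hlim ξ hξ, fun z hz hcz => h z (le_of_lt hcz) ?_⟩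
      have hcv : ∀ η ≤ ξ, c.1 η = ((t η + 1 : ℕ) : ℕ∞) := by
        intro η hη
        show (if η < δ then ((t η + 1 : ℕ) : ℕ∞) else ⊤) = _
        rw [if_pos (hη.trans_lt hξ)]
      show z.1 < (y : X).1
      refine Q_lt_iff.2 ⟨ξ, fun η hη => ?_, ?_⟩
      · rw [← h1 η hη, hcv η hη.le, hz η (hη.trans (lt_sc ξ))]
      · rw [hz ξ (lt_sc ξ), ← hcv ξ le_rfl]
        exact h2
  obtain ⟨γ, hβγ, hγδ, k, hk, hbad⟩ := hturn β hβ
  apply hbad.2 U hU
  intro z hz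
  apply hβU
  · intro ξ hξ
    have h1 : ξ < γ := hξ.trans_le hβγ
    rw [hz ξ (h1.trans (lt_sc γ)), update_of_ne h1.ne]
  · show c.1 < z.1
    refine Q_lt_iff.2 ⟨γ, fun η hη => ?_, ?_⟩
    · rw [hz η (hη.trans (lt_sc γ)), update_of_ne hη.ne]
      show (if η < δ then ((t η + 1 : ℕ) : ℕ∞) else ⊤) = _
      rw [if_pos (hη.trans hγδ)]
    · rw [hz γ (lt_sc γ), update_self]
      show (if γ < δ then ((t γ + 1 : ℕ) : ℕ∞) else ⊤) < _
      rw [if_pos hγδ]
      exact_mod_cast Nat.succ_lt_succ hk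

/-- The main lemma for the topology of the intervals `(a, b]`. -/
theorem main_left (𝒰 : Set (Set (RS Xᵒᵈ))) (ho : ∀ U ∈ 𝒰, IsOpen U) (hc : ⋃₀ 𝒰 = Set.univ) :
    ∃ α : W, ∀ t, Nd α t → ∃ U ∈ 𝒰, ∀ x ∈ cone α t, OrderDual.toDual x ∈ U := by
  classical
  by_contra hcon
  push Not at hcon
  obtain ⟨δ, t, ⟨β0, hβ0⟩, hlim, hnd, hturn⟩ := turn (fun k l => l < k)
    (fun k l h => (lt_or_gt_of_ne h).symm)
    (fun α t => Nd α t ∧ ∀ U ∈ 𝒰, ¬ ∀ x ∈ cone α t, OrderDual.toDual x ∈ U) (fun α t h => h.1)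
    (fun α s t hst h => ⟨h.1.congr hst, fun U hU => by rw [← cone_congr hst]; exact h.2 U hU⟩)
    (fun α β t hle h => ⟨h.1.mono hle, fun U hU hs => h.2 U hU
      (fun x hx => hs x (cone_mono t hle hx))⟩)
    (fun α => by
      obtain ⟨t, h1, h2⟩ := hcon α
      refine ⟨t, h1, fun U hU h3 => ?_⟩
      obtain ⟨x, hx, hxU⟩ := h2 U hU
      exact hxU (h3 x hx))
  let c : X := ⟨opn δ t, δ, t, hnd, Or.inl rfl⟩
  have hcU : (OrderDual.toDual c : RS Xᵒᵈ) ∈ ⋃₀ 𝒰 := by rw [hc]; trivial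
  obtain ⟨U, hU, hcU⟩ := hcU
  -- a level below which neighbourhoods are determined
  obtain ⟨β, hβ, hβU⟩ : ∃ β < δ, ∀ z : X, (∀ ξ < β, z.1 ξ = ((t ξ + 1 : ℕ) : ℕ∞)) → z < c →
      OrderDual.toDual z ∈ U := by
    rcases exists_of_isOpen (ho U hU) hcU with h | ⟨y, hy, h⟩
    · exact ⟨β0, hβ0, fun z _ hz => h (OrderDual.toDual z) (le_of_lt hz)⟩
    · obtain ⟨y', hy'⟩ : ∃ y' : X, OrderDual.toDual y' = (y : Xᵒᵈ) := ⟨OrderDual.ofDual y, rfl⟩
      have hy2 : y' < c := by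
        have : (y : Xᵒᵈ) > OrderDual.toDual c := hy
        rw [← hy'] at this
        exact this
      obtain ⟨ξ, h1, h2⟩ := Q_lt_iff.1 (show y'.1 < c.1 from hy2)
      have hξ : ξ < δ := by
        by_contra hξ
        have : c.1 ξ = 0 := by
          show (if ξ < δ then ((t ξ + 1 : ℕ) : ℕ∞) else 0) = 0
          rw [if_neg hξ]
        rw [this] at h2
        exact not_lt_zero h2
      refine ⟨sc ξ, hlim ξ hξ, fun z hz hcz => h (OrderDual.toDual z) (le_of_lt hcz) ?_⟩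
      have hcv : ∀ η ≤ ξ, c.1 η = ((t η + 1 : ℕ) : ℕ∞) := by
        intro η hη
        show (if η < δ then ((t η + 1 : ℕ) : ℕ∞) else 0) = _
        rw [if_pos (hη.trans_lt hξ)]
      have : y' < z := by
        show y'.1 < z.1
        refine Q_lt_iff.2 ⟨ξ, fun η hη => ?_, ?_⟩
        · rw [h1 η hη, hcv η hη.le, hz η (hη.trans (lt_sc ξ))]
        · rw [hz ξ (lt_sc ξ), ← hcv ξ le_rfl]
          exact h2
      have h4 : (OrderDual.toDual z : Xᵒᵈ) < OrderDual.toDual y' := this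
      rw [hy'] at h4
      exact h4
  obtain ⟨γ, hβγ, hγδ, k, hk, hbad⟩ := hturn β hβ
  apply hbad.2 U hU
  intro z hz
  apply hβU
  · intro ξ hξ
    have h1 : ξ < γ := hξ.trans_le hβγ
    rw [hz ξ (h1.trans (lt_sc γ)), update_of_ne h1.ne]
  · show z.1 < c.1
    refine Q_lt_iff.2 ⟨γ, fun η hη => ?_, ?_⟩
    · rw [hz η (hη.trans (lt_sc γ)), update_of_ne hη.ne]
      show _ = (if η < δ then ((t η + 1 : ℕ) : ℕ∞) else 0)
      rw [if_pos (hη.trans hγδ)]
    · rw [hz γ (lt_sc γ), update_self]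
      show _ < (if γ < δ then ((t γ + 1 : ℕ) : ℕ∞) else 0)
      rw [if_pos hγδ]
      exact_mod_cast Nat.succ_lt_succ hk

theorem uncountable_X : ¬ Countable X := by
  intro h
  apply not_countable_univ
  have hinj : Function.Injective (fun α : W => (⟨opn α (cg α), α, cg α, nd_cg α, Or.inl rfl⟩ : X)) := by
    intro α β hab
    have h1 : opn α (cg α) = opn β (cg β) := congrArg Subtype.val hab
    by_contra hne
    rcases lt_or_gt_of_ne hne with h2 | h2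
    · have h3 := congrFun h1 α
      have h4 : opn α (cg α) α = 0 := by
        show (if α < α then ((cg α α + 1 : ℕ) : ℕ∞) else 0) = 0
        rw [if_neg (lt_irrefl α)]
      have h5 : opn β (cg β) α = ((cg β α + 1 : ℕ) : ℕ∞) := by
        show (if α < β then ((cg β α + 1 : ℕ) : ℕ∞) else 0) = _
        rw [if_pos h2]
      rw [h4, h5] at h3
      have h6 : (0 : ℕ) = cg β α + 1 := by exact_mod_cast h3
      omega
    · have h3 := congrFun h1 β
      have h4 : opn β (cg β) β = 0 := by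
        show (if β < β then ((cg β β + 1 : ℕ) : ℕ∞) else 0) = 0
        rw [if_neg (lt_irrefl β)]
      have h5 : opn α (cg α) β = ((cg α β + 1 : ℕ) : ℕ∞) := by
        show (if β < α then ((cg α β + 1 : ℕ) : ℕ∞) else 0) = _
        rw [if_pos h2]
      rw [h4, h5] at h3
      have h6 : cg α β + 1 = (0 : ℕ) := by exact_mod_cast h3
      omega
  have := @Function.Injective.countable W X h _ hinj
  exact Set.countable_univ_iff.2 this

/-- For countably many covers there is one countable family of pieces each of which is contained in a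
member of each of the covers. -/
theorem pieces (𝒰 : ℕ → Set (Set (Z X))) (ho : ∀ n, ∀ U ∈ 𝒰 n, IsOpen U)
    (hc : ∀ n, ⋃₀ 𝒰 n = Set.univ) :
    ∃ P : Set (Set (Z X)), P.Countable ∧ (⋃₀ P = Set.univ) ∧
      ∀ p ∈ P, ∀ n, ∃ U ∈ 𝒰 n, p ⊆ U := by
  classical
  -- levels
  have h1 : ∀ n, ∃ α : W, ∀ t, Nd α t → ∃ U ∈ 𝒰 n, ∀ x ∈ cone α t, il x ∈ U := by
    intro n
    obtain ⟨α, hα⟩ := main_right {V | ∃ U ∈ 𝒰 n, V = Sum.inl ⁻¹' U}
      (by rintro _ ⟨U, hU, rfl⟩; exact (ho n U hU).preimage continuous_inl)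
      (by
        rw [Set.eq_univ_iff_forall]
        intro x
        have : (Sum.inl x : Z X) ∈ ⋃₀ 𝒰 n := by rw [hc n]; trivial
        obtain ⟨U, hU, hx⟩ := this
        exact ⟨_, ⟨U, hU, rfl⟩, hx⟩)
    refine ⟨α, fun t ht => ?_⟩
    obtain ⟨_, ⟨U, hU, rfl⟩, h⟩ := hα t ht
    exact ⟨U, hU, fun x hx => h hx⟩
  have h2 : ∀ n, ∃ α : W, ∀ t, Nd α t → ∃ U ∈ 𝒰 n, ∀ x ∈ cone α t, ir x ∈ U := by
    intro n
    obtain ⟨α, hα⟩ := main_left {V | ∃ U ∈ 𝒰 n, V = Sum.inr ⁻¹' U}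
      (by rintro _ ⟨U, hU, rfl⟩; exact (ho n U hU).preimage continuous_inr)
      (by
        rw [Set.eq_univ_iff_forall]
        intro x
        have : (Sum.inr x : Z X) ∈ ⋃₀ 𝒰 n := by rw [hc n]; trivial
        obtain ⟨U, hU, hx⟩ := this
        exact ⟨_, ⟨U, hU, rfl⟩, hx⟩)
    refine ⟨α, fun t ht => ?_⟩
    obtain ⟨_, ⟨U, hU, rfl⟩, h⟩ := hα t ht
    exact ⟨U, hU, fun x hx => h x hx⟩
  choose a ha using h1
  choose b hb using h2
  obtain ⟨α, hα⟩ := exists_bound ((Set.countable_range a).union (Set.countable_range b))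
  have ha' : ∀ n t, Nd α t → ∃ U ∈ 𝒰 n, ∀ x ∈ cone α t, il x ∈ U := by
    intro n t ht
    have hle : a n ≤ α := (hα _ (Or.inl ⟨n, rfl⟩)).le
    obtain ⟨U, hU, h⟩ := ha n t (ht.mono hle)
    exact ⟨U, hU, fun x hx => h x (cone_mono t hle hx)⟩
  have hb' : ∀ n t, Nd α t → ∃ U ∈ 𝒰 n, ∀ x ∈ cone α t, ir x ∈ U := by
    intro n t ht
    have hle : b n ≤ α := (hα _ (Or.inr ⟨n, rfl⟩)).le
    obtain ⟨U, hU, h⟩ := hb n t (ht.mono hle)
    exact ⟨U, hU, fun x hx => h x (cone_mono t hle hx)⟩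
  -- representatives
  choose S hS1 hS2 hS3 using reps
  have hlow : {x : X | ∃ γ < α, ∃ t, Nd γ t ∧ (x.1 = opn γ t ∨ x.1 = cls γ t)}.Countable := by
    have hsub : {x : X | ∃ γ < α, ∃ t, Nd γ t ∧ (x.1 = opn γ t ∨ x.1 = cls γ t)} ⊆
        ⋃ γ ∈ Set.Iio α, ⋃ s ∈ S γ, ({x : X | x.1 = opn γ s} ∪ {x : X | x.1 = cls γ s}) := by
      rintro x ⟨γ, hγ, t, ht, hx⟩
      obtain ⟨s, hs, hag⟩ := hS3 γ t ht
      refine Set.mem_biUnion hγ (Set.mem_biUnion hs ?_)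
      have e1 : opn γ t = opn γ s := by
        funext ξ
        show (if ξ < γ then ((t ξ + 1 : ℕ) : ℕ∞) else 0) = (if ξ < γ then ((s ξ + 1 : ℕ) : ℕ∞) else 0)
        split_ifs with h
        · rw [hag ξ h]
        · rfl
      have e2 : cls γ t = cls γ s := by
        funext ξ
        show (if ξ < γ then ((t ξ + 1 : ℕ) : ℕ∞) else ⊤) = (if ξ < γ then ((s ξ + 1 : ℕ) : ℕ∞) else ⊤)
        split_ifs with h
        · rw [hag ξ h]
        · rfl
      rcases hx with hx | hx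
      · exact Or.inl (hx.trans e1)
      · exact Or.inr (hx.trans e2)
    refine Set.Countable.mono hsub ?_
    refine (countable_Iio α).biUnion (fun γ _ => (hS1 γ).biUnion (fun s _ => ?_))
    refine Set.Countable.union ?_ ?_
    · refine Set.Subsingleton.countable ?_
      intro x hx y hy
      exact Subtype.ext (hx.trans hy.symm)
    · refine Set.Subsingleton.countable ?_
      intro x hx y hy
      exact Subtype.ext (hx.trans hy.symm)
  refine ⟨((fun s => il '' cone α s) '' S α ∪ (fun s => ir '' cone α s) '' S α) ∪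
    ((fun x : X => ({il x} : Set (Z X))) ''
      {x : X | ∃ γ < α, ∃ t, Nd γ t ∧ (x.1 = opn γ t ∨ x.1 = cls γ t)} ∪
    (fun x : X => ({ir x} : Set (Z X))) ''
      {x : X | ∃ γ < α, ∃ t, Nd γ t ∧ (x.1 = opn γ t ∨ x.1 = cls γ t)}), ?_, ?_, ?_⟩
  · exact (((hS1 α).image _).union ((hS1 α).image _)).union ((hlow.image _).union (hlow.image _))
  · rw [Set.eq_univ_iff_forall]
    have key : ∀ x : X, (∃ s ∈ S α, x ∈ cone α s) ∨
        (∃ γ < α, ∃ t, Nd γ t ∧ (x.1 = opn γ t ∨ x.1 = cls γ t)) := by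
      intro x
      obtain ⟨γ, t, ht, hx⟩ := x.2
      rcases lt_or_ge γ α with h | h
      · exact Or.inr ⟨γ, h, t, ht, hx⟩
      · obtain ⟨s, hs, hag⟩ := hS3 α t (ht.mono h)
        left
        refine ⟨s, hs, ?_⟩
        rw [cone_congr hag]
        exact mem_cone_of hx h
    rintro (x | x)
    · rcases key x with ⟨s, hs, h⟩ | h
      · exact ⟨il '' cone α s, Or.inl (Or.inl ⟨s, hs, rfl⟩), ⟨x, h, rfl⟩⟩
      · exact ⟨{il (x : X)}, Or.inr (Or.inl ⟨x, h, rfl⟩), rfl⟩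
    · rcases key (OrderDual.ofDual x) with ⟨s, hs, h⟩ | h
      · exact ⟨ir '' cone α s, Or.inl (Or.inr ⟨s, hs, rfl⟩), ⟨OrderDual.ofDual x, h, rfl⟩⟩
      · exact ⟨{ir (OrderDual.ofDual x : X)}, Or.inr (Or.inr ⟨_, h, rfl⟩), rfl⟩
  · rintro p ((⟨s, hs, rfl⟩ | ⟨s, hs, rfl⟩) | (⟨x, hx, rfl⟩ | ⟨x, hx, rfl⟩)) n
    · obtain ⟨U, hU, h⟩ := ha' n s (hS2 α s hs)
      refine ⟨U, hU, ?_⟩
      rintro _ ⟨x, hx, rfl⟩
      exact h x hx
    · obtain ⟨U, hU, h⟩ := hb' n s (hS2 α s hs)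
      refine ⟨U, hU, ?_⟩
      rintro _ ⟨x, hx, rfl⟩
      exact h x hx
    · have : il x ∈ ⋃₀ 𝒰 n := by rw [hc n]; trivial
      obtain ⟨U, hU, h⟩ := this
      exact ⟨U, hU, Set.singleton_subset_iff.2 h⟩
    · have : ir x ∈ ⋃₀ 𝒰 n := by rw [hc n]; trivial
      obtain ⟨U, hU, h⟩ := this
      exact ⟨U, hU, Set.singleton_subset_iff.2 h⟩

end Pool.Agent.X212.Roth
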