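import Pool.Agent.Helper330.DPK.Coh

/-!
# Turns in subtrees of a coherent Aronszajn tree

The nodes of level `α` are the functions `t : ω₁ → ℕ`, considered below `α`, which differ from the
coherent finite-to-one function `cg α` only finitely many times below `α`.  In every subtree of nodes
of arbitrarily large level there is a node of limit level `δ` which turns away from the subtree, to a
prescribed side, cofinally often below `δ`.
-/

set_option autoImplicit false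

open Set Function

namespace Pool.Agent.X212.Roth

open Pool.Agent.Helper330.DPK.Coh

theorem not_countable_univ : ¬ (Set.univ : Set W).Countable := by
  intro h
  have h1 : Countable W := Set.countable_univ_iff.1 h
  have h2 := Cardinal.mk_le_aleph0 (α := W)
  rw [Cardinal.mk_toType, Cardinal.card_ord] at h2
  exact absurd h2 (not_le.2 Cardinal.aleph0_lt_aleph_one)

theorem exists_bound {S : Set W} (hS : S.Countable) : ∃ b : W, ∀ s ∈ S, s < b := by
  by_contra hcon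
  push Not at hcon
  apply not_countable_univ
  have : (Set.univ : Set W) ⊆ ⋃ s ∈ S, Set.Iic s := by
    intro x _
    obtain ⟨s, hs, hx⟩ := hcon x
    exact Set.mem_biUnion hs hx
  exact (hS.biUnion (fun s _ => countable_Iic s)).mono this

/-- the successor -/
noncomputable def sc (γ : W) : W := (wellFounded_lt (α := W)).min {x | γ < x} (exists_gt γ)

theorem lt_sc (γ : W) : γ < sc γ := (wellFounded_lt (α := W)).min_mem {x | γ < x} (exists_gt γ)

theorem sc_le {γ x : W} (h : γ < x) : sc γ ≤ x :=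
  not_lt.1 ((wellFounded_lt (α := W)).not_lt_min {x | γ < x} (x := x) h)

theorem lt_sc_iff {x γ : W} : x < sc γ ↔ x ≤ γ := by
  constructor
  · intro h
    by_contra hc
    exact absurd h (not_lt.2 (sc_le (not_le.1 hc)))
  · exact fun h => h.trans_lt (lt_sc γ)

/-- `t` is a node of level `α` -/
def Nd (α : W) (t : W → ℕ) : Prop := {ξ | ξ < α ∧ t ξ ≠ cg α ξ}.Finite

/-- agreement below `α` -/
def Ag (α : W) (s t : W → ℕ) : Prop := ∀ ξ < α, s ξ = t ξ

theorem Ag.refl (α : W) (s : W → ℕ) : Ag α s s := fun _ _ => rfl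

theorem Ag.symm {α : W} {s t : W → ℕ} (h : Ag α s t) : Ag α t s := fun ξ hξ => (h ξ hξ).symm

theorem Ag.trans {α : W} {s t u : W → ℕ} (h : Ag α s t) (h' : Ag α t u) : Ag α s u :=
  fun ξ hξ => (h ξ hξ).trans (h' ξ hξ)

theorem Ag.mono {α β : W} {s t : W → ℕ} (h : Ag α s t) (hle : β ≤ α) : Ag β s t :=
  fun ξ hξ => h ξ (hξ.trans_le hle)

theorem Nd.congr {α : W} {s t : W → ℕ} (h : Nd α s) (hst : Ag α s t) : Nd α t := by
  refine h.subset ?_
  rintro ξ ⟨h1, h2⟩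
  exact ⟨h1, by rw [hst ξ h1]; exact h2⟩

theorem Nd.mono {α β : W} {t : W → ℕ} (h : Nd α t) (hle : β ≤ α) : Nd β t := by
  refine (h.union (cg_coh β α)).subset ?_
  rintro ξ ⟨h1, h2⟩
  by_cases h3 : t ξ = cg α ξ
  · right
    exact ⟨h1, h1.trans_le hle, fun h4 => h2 (h3.trans h4.symm)⟩
  · left
    exact ⟨h1.trans_le hle, h3⟩

theorem nd_cg (α : W) : Nd α (cg α) := by
  have : {ξ | ξ < α ∧ cg α ξ ≠ cg α ξ} = ∅ := by
    ext ξ
    simp
  rw [Nd, this]
  exact Set.finite_empty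

theorem Nd.update_sc {γ : W} {t : W → ℕ} (h : Nd γ t) (k : ℕ) : Nd (sc γ) (update t γ k) := by
  classical
  refine ((h.union (cg_coh γ (sc γ))).union (Set.finite_singleton γ)).subset ?_
  rintro ξ ⟨h1, h2⟩
  rcases (lt_sc_iff.1 h1).eq_or_lt with rfl | h3
  · right
    rfl
  · left
    rw [update_of_ne h3.ne] at h2
    by_cases h4 : t ξ = cg γ ξ
    · right
      exact ⟨h3, h1, fun h5 => h2 (h4.trans h5)⟩
    · left
      exact ⟨h3, h4⟩

theorem reps (α : W) : ∃ S : Set (W → ℕ), S.Countable ∧ (∀ s ∈ S, Nd α s) ∧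
    ∀ t, Nd α t → ∃ s ∈ S, Ag α s t := by
  classical
  have hc : Countable (Set.Iio α) := (countable_Iio α).to_subtype
  let f : Finset (Set.Iio α × ℕ) → (W → ℕ) := fun E ξ =>
    if h : ∃ p ∈ E, p.1.1 = ξ then h.choose.2 else cg α ξ
  refine ⟨Set.range f, Set.countable_range f, ?_, ?_⟩
  · rintro _ ⟨E, rfl⟩
    refine (E.finite_toSet.image (fun p => p.1.1)).subset ?_
    rintro ξ ⟨h1, h2⟩
    by_contra hc
    apply h2
    have : ¬ ∃ p ∈ E, p.1.1 = ξ := by
      rintro ⟨p, hp, hpξ⟩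
      exact hc ⟨p, hp, hpξ⟩
    show (if h : ∃ p ∈ E, p.1.1 = ξ then h.choose.2 else cg α ξ) = _
    rw [dif_neg this]
  · intro t ht
    have hfin : {p : Set.Iio α × ℕ | t p.1.1 ≠ cg α p.1.1 ∧ p.2 = t p.1.1}.Finite := by
      refine Set.Finite.of_finite_image (f := fun p : Set.Iio α × ℕ => p.1.1) (ht.subset ?_) ?_
      · rintro _ ⟨p, ⟨hp1, hp2⟩, rfl⟩
        exact ⟨p.1.2, hp1⟩
      · rintro p ⟨hp1, hp2⟩ q ⟨hq1, hq2⟩ hpq
        have h1 : p.1 = q.1 := Subtype.ext hpq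
        exact Prod.ext h1 (by rw [hp2, hq2, h1])
    refine ⟨f hfin.toFinset, ⟨_, rfl⟩, ?_⟩
    intro ξ hξ
    show (if h : ∃ p ∈ hfin.toFinset, p.1.1 = ξ then h.choose.2 else cg α ξ) = _
    split_ifs with h
    · have h1 := h.choose_spec
      have h2 := (Set.Finite.mem_toFinset hfin).1 h1.1
      rw [h2.2, h1.2]
    · by_contra hc
      exact h ⟨⟨⟨ξ, hξ⟩, t ξ⟩, (Set.Finite.mem_toFinset hfin).2 ⟨fun h3 => hc h3.symm, rfl⟩, rfl⟩

theorem no_branch (g : W → ℕ) : ¬ ∀ α, Nd α g := by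
  intro h
  -- some fibre is infinite
  obtain ⟨m, hm⟩ : ∃ m, {ξ | g ξ = m}.Infinite := by
    by_contra hcon
    push Not at hcon
    apply not_countable_univ
    have : (Set.univ : Set W) ⊆ ⋃ m, {ξ | g ξ = m} := fun ξ _ => Set.mem_iUnion.2 ⟨g ξ, rfl⟩
    exact (Set.countable_iUnion (fun m => (hcon m).countable)).mono this
  obtain ⟨S, hS1, hS2⟩ : ∃ S ⊆ {ξ | g ξ = m}, S.Infinite ∧ S.Countable := by
    let e := hm.natEmbedding
    refine ⟨Set.range (fun n => (e n).1), ?_, ?_, Set.countable_range _⟩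
    · rintro _ ⟨n, rfl⟩
      exact (e n).2
    · exact Set.infinite_range_of_injective (Subtype.val_injective.comp e.injective)
  obtain ⟨b, hb⟩ := exists_bound hS2.2
  apply hS2.1
  refine ((h b).union (cg_fin b m)).subset ?_
  intro ξ hξ
  have h1 : g ξ = m := hS1 hξ
  by_cases h2 : g ξ = cg b ξ
  · right
    exact ⟨hb ξ hξ, by rw [← h2, h1]⟩
  · left
    exact ⟨hb ξ hξ, h2⟩

/-- **Turning lemma.** -/
theorem turn (r : ℕ → ℕ → Prop) (hr : ∀ k l, k ≠ l → r k l ∨ r l k)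
    (Bad : W → (W → ℕ) → Prop) (hnd : ∀ α t, Bad α t → Nd α t)
    (hcongr : ∀ α s t, Ag α s t → Bad α s → Bad α t)
    (hmono : ∀ α β t, β ≤ α → Bad α t → Bad β t)
    (hex : ∀ α, ∃ t, Bad α t) :
    ∃ δ t, (∃ β, β < δ) ∧ (∀ β < δ, sc β < δ) ∧ Nd δ t ∧
      ∀ β < δ, ∃ γ, β ≤ γ ∧ γ < δ ∧ ∃ k, r (t γ) k ∧ Bad (sc γ) (update t γ k) := by
  classical
  -- the pruned part
  let B : W → (W → ℕ) → Prop := fun α t => ∀ γ, α ≤ γ → ∃ t', Ag α t t' ∧ Bad γ t'
  have hB_congr : ∀ α s t, Ag α s t → B α s → B α t := by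
    intro α s t hst h γ hγ
    obtain ⟨t', h1, h2⟩ := h γ hγ
    exact ⟨t', hst.symm.trans h1, h2⟩
  have hB_mono : ∀ α β t, β ≤ α → B α t → B β t := by
    intro α β t hle h γ hγ
    obtain ⟨t', h1, h2⟩ := h (max α γ) (le_max_left _ _)
    exact ⟨t', h1.mono hle, hmono _ _ _ (le_max_right _ _) h2⟩
  have hB_bad : ∀ α t, B α t → Bad α t := by
    intro α t h
    obtain ⟨t', h1, h2⟩ := h α le_rfl
    exact hcongr _ _ _ h1.symm h2
  -- extension property
  have hB_ext : ∀ α t, B α t → ∀ γ, α ≤ γ → ∃ t', Ag α t t' ∧ B γ t' := by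
    intro α t h γ hγ
    by_contra hcon
    push Not at hcon
    obtain ⟨S, hS, hS1, hS2⟩ := reps γ
    have h1 : ∀ s : W → ℕ, ∃ η : W, Ag α t s → γ ≤ η ∧ ∀ t', Ag γ s t' → ¬ Bad η t' := by
      intro s
      by_cases hs : Ag α t s
      · have h2 := hcon s hs
        have h3 : ¬ ∀ η, γ ≤ η → ∃ t', Ag γ s t' ∧ Bad η t' := h2
        push Not at h3
        obtain ⟨η, hη1, hη2⟩ := h3
        exact ⟨η, fun _ => ⟨hη1, hη2⟩⟩
      · exact ⟨γ, fun h => absurd h hs⟩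
    choose η hη using h1
    obtain ⟨b, hb⟩ := exists_bound (hS.image η)
    obtain ⟨t', ht1, ht2⟩ := h (max b γ) (hγ.trans (le_max_right _ _))
    have ht3 : Nd γ t' := (hnd _ _ ht2).mono (le_max_right _ _)
    obtain ⟨s, hs, hst⟩ := hS2 t' ht3
    have h4 : Ag α t s := ht1.trans ((hst.mono hγ).symm)
    obtain ⟨h5, h6⟩ := hη s h4
    refine h6 t' hst (hmono _ _ _ ?_ ht2)
    exact (hb _ ⟨s, hs, rfl⟩).le.trans (le_max_left _ _)
  -- no turns
  let R : W → (W → ℕ) → W → (W → ℕ) → Prop := fun β s α t =>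
    β ≤ α ∧ Ag β s t ∧ B α t ∧ ∀ γ, β ≤ γ → γ < α → ∀ k, r (t γ) k → ¬ B (sc γ) (update t γ k)
  have hR_compat : ∀ β s α t α' t', R β s α t → R β s α' t' → α ≤ α' → Ag α t t' := by
    intro β s α t α' t' h h' hle
    by_contra hcon
    have h0 : {ξ | ξ < α ∧ t ξ ≠ t' ξ}.Nonempty := by
      by_contra hc
      apply hcon
      intro ξ hξ
      by_contra hc2
      exact hc ⟨ξ, hξ, hc2⟩
    set γ := (wellFounded_lt (α := W)).min _ h0 with hγ
    have hγ1 : γ < α ∧ t γ ≠ t' γ := (wellFounded_lt (α := W)).min_mem _ h0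
    have hγ2 : ∀ ξ < γ, t ξ = t' ξ := by
      intro ξ hξ
      by_contra hc
      exact (wellFounded_lt (α := W)).not_lt_min {ξ | ξ < α ∧ t ξ ≠ t' ξ} (x := ξ)
        ⟨hξ.trans hγ1.1, hc⟩ hξ
    have hβγ : β ≤ γ := by
      by_contra hc
      rw [not_le] at hc
      exact hγ1.2 ((h.2.1 γ hc).symm.trans (h'.2.1 γ hc))
    rcases hr _ _ hγ1.2 with h1 | h1
    · refine h.2.2.2 γ hβγ hγ1.1 (t' γ) h1 ?_
      have h2 : B (sc γ) t' := hB_mono _ _ _ (sc_le (hγ1.1.trans_le hle)) h'.2.2.1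
      refine hB_congr _ _ _ ?_ h2
      intro ξ hξ
      rcases (lt_sc_iff.1 hξ).eq_or_lt with rfl | h3
      · rw [update_self]
      · rw [update_of_ne h3.ne, hγ2 ξ h3]
    · refine h'.2.2.2 γ hβγ (hγ1.1.trans_le hle) (t γ) h1 ?_
      have h2 : B (sc γ) t := hB_mono _ _ _ (sc_le hγ1.1) h.2.2.1
      refine hB_congr _ _ _ ?_ h2
      intro ξ hξ
      rcases (lt_sc_iff.1 hξ).eq_or_lt with rfl | h3
      · rw [update_self]
      · rw [update_of_ne h3.ne, hγ2 ξ h3]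
  have hR_bound : ∀ β s, ∃ H : W, ∀ α t, R β s α t → α < H := by
    intro β s
    by_contra hcon
    push Not at hcon
    choose A t hR hA using hcon
    -- the branch
    let g : W → ℕ := fun ξ => t (sc ξ) ξ
    apply no_branch g
    intro α
    have h1 : ∀ η ζ, ∀ ξ < A η, ξ < A ζ → t η ξ = t ζ ξ := by
      intro η ζ ξ h2 h3
      rcases le_total (A η) (A ζ) with h | h
      · exact hR_compat _ _ _ _ _ _ (hR η) (hR ζ) h ξ h2
      · exact (hR_compat _ _ _ _ _ _ (hR ζ) (hR η) h ξ h3).symm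
    have h2 : Nd α (t α) := (hnd _ _ (hB_bad _ _ (hR α).2.2.1)).mono (hA α)
    refine h2.congr ?_
    intro ξ hξ
    exact h1 α (sc ξ) ξ (hξ.trans_le (hA α)) ((lt_sc ξ).trans_le (hA (sc ξ)))
  choose H hH using hR_bound
  -- a bound for all nodes of level `β`
  have hH2 : ∀ β, ∃ K : W, ∀ s, Nd β s → ∀ α t, R β s α t → α < K := by
    intro β
    obtain ⟨S, hS, hS1, hS2⟩ := reps β
    obtain ⟨b, hb⟩ := exists_bound (hS.image (H β))
    refine ⟨b, fun s hs α t h => ?_⟩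
    obtain ⟨s', hs', hag⟩ := hS2 s hs
    have h1 : R β s' α t := ⟨h.1, hag.trans h.2.1, h.2.2.1, h.2.2.2⟩
    exact (hH β s' α t h1).trans (hb _ ⟨s', hs', rfl⟩)
  choose K hK using hH2
  have hK2 : ∀ β, ∃ M : W, ∀ β' ≤ β, K β' < M := by
    intro β
    obtain ⟨b, hb⟩ := exists_bound ((countable_Iic β).image K)
    exact ⟨b, fun β' hβ' => hb _ ⟨β', hβ', rfl⟩⟩
  choose M hM using hK2
  let d : ℕ → W := fun n => Nat.rec (motive := fun _ => W) (Classical.arbitrary W)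
    (fun _ x => max (sc x) (M x)) n
  have hd1 : ∀ n, d n < d (n + 1) := fun n => (lt_sc _).trans_le (le_max_left _ _)
  have hd2 : ∀ n, M (d n) ≤ d (n + 1) := fun n => le_max_right _ _
  obtain ⟨b, hb⟩ := exists_bound (Set.countable_range d)
  have hne : {x : W | ∀ n, d n < x}.Nonempty := ⟨b, fun n => hb _ ⟨n, rfl⟩⟩
  set δ := (wellFounded_lt (α := W)).min _ hne with hδ
  have hδ1 : ∀ n, d n < δ := (wellFounded_lt (α := W)).min_mem _ hne
  have hδ2 : ∀ x < δ, ∃ n, x ≤ d n := by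
    intro x hx
    by_contra hc
    push Not at hc
    exact (wellFounded_lt (α := W)).not_lt_min {x : W | ∀ n, d n < x} (x := x) hc hx
  have hlim : ∀ β < δ, sc β < δ := by
    intro β hβ
    obtain ⟨n, hn⟩ := hδ2 β hβ
    exact (sc_le (hn.trans_lt (hd1 n))).trans_lt (hδ1 (n + 1))
  -- a node of level `δ`
  obtain ⟨t0, ht0⟩ := hex (Classical.arbitrary W)
  obtain ⟨m, hm⟩ : ∃ m : W, ∀ x, m ≤ x := by
    refine ⟨(wellFounded_lt (α := W)).min Set.univ Set.univ_nonempty, fun x => ?_⟩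
    exact not_lt.1 ((wellFounded_lt (α := W)).not_lt_min Set.univ (x := x) (Set.mem_univ _))
  have hroot : B m t0 := by
    intro γ _
    obtain ⟨t', ht'⟩ := hex γ
    exact ⟨t', fun ξ hξ => absurd (hm ξ) (not_le.2 hξ), ht'⟩
  obtain ⟨t, -, ht⟩ := hB_ext m t0 hroot δ (hm δ)
  refine ⟨δ, t, ⟨_, hδ1 0⟩, hlim, hnd _ _ (hB_bad _ _ ht), fun β hβ => ?_⟩
  by_contra hcon
  push Not at hcon
  have h1 : R β t δ t := by
    refine ⟨hβ.le, Ag.refl _ _, ht, fun γ h1 h2 k hk hB => ?_⟩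
    exact hcon γ h1 h2 k hk (hB_bad _ _ hB)
  have h2 := hK β t ((hnd _ _ (hB_bad _ _ ht)).mono hβ.le) δ t h1
  obtain ⟨n, hn⟩ := hδ2 β hβ
  have h3 := hM (d n) β hn
  exact lt_irrefl δ (h2.trans (h3.trans ((hd2 n).trans_lt (hδ1 (n + 1)))))

end Pool.Agent.X212.Roth
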